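import Mathlib

/-!
# Project SX: elements with constant conjugates (helper615 for helper145)
-/

set_option autoImplicit false
set_option linter.overlappingInstances false
set_option linter.unusedSectionVars false

open Polynomial IntermediateField Module

namespace Pool.Agent.N615.SX

/-- conjugates which are in an algebraically closed subfield -/
theorem alg_core (K L Ω : Type) [Field K] [Field L] [Field Ω] [Algebra ℂ K] [Algebra ℂ L] [Algebra ℂ Ω]
    [Algebra L K] [IsScalarTower ℂ L K] [FiniteDimensional L K] [Algebra L Ω]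
    [IsScalarTower ℂ L Ω] [IsAlgClosed Ω] (Λ : IntermediateField ℂ Ω)
    (_hcl : ∀ z : Ω, IsAlgebraic Λ z → z ∈ Λ) (z : K) (hz : ∀ τ : K →ₐ[L] Ω, τ z ∈ Λ) :
    IsAlgebraic (Λ.comap (IsScalarTower.toAlgHom ℂ L Ω)) z := by
  obtain ⟨p, hp⟩ : ∃ p, p = minpoly L z := ⟨_, rfl⟩
  have hint : IsIntegral L z := Algebra.IsIntegral.isIntegral z
  have hmon : p.Monic := by
    rw [hp]
    exact minpoly.monic hint
  have hroots := Algebra.IsAlgebraic.range_eval_eq_rootSet_minpoly (F := L)
    (A := Ω) z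
  have hsp : (p.map (algebraMap L Ω)).Splits :=
    IsAlgClosed.splits _
  have hmem : p.map (algebraMap L Ω) ∈ Polynomial.lifts (algebraMap Λ Ω) := by
    refine hsp.mem_lift_of_roots_mem_range (hmon.map _) _ fun a ha => ?_
    have h1 : a ∈ (minpoly L z).rootSet Ω := by
      rw [Polynomial.rootSet, ← hp]
      simpa [Polynomial.aroots] using ha
    rw [← hroots] at h1
    obtain ⟨τ, hτ⟩ := h1
    exact ⟨⟨τ z, hz τ⟩, hτ⟩
  have hcoef : ∀ i, p.coeff i ∈ Λ.comap (IsScalarTower.toAlgHom ℂ L Ω) := by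
    intro i
    rw [Polynomial.lifts_iff_coeff_lifts] at hmem
    obtain ⟨c, hc⟩ := hmem i
    rw [Polynomial.coeff_map] at hc
    show algebraMap L Ω (p.coeff i) ∈ Λ
    rw [← hc]
    exact c.2
  have hlift : p ∈ Polynomial.lifts (algebraMap (Λ.comap (IsScalarTower.toAlgHom ℂ L Ω)) L) := by
    rw [Polynomial.lifts_iff_coeff_lifts]
    intro i
    exact ⟨⟨_, hcoef i⟩, rfl⟩
  obtain ⟨q, hq⟩ := hlift
  have hq' : q.map (algebraMap (Λ.comap (IsScalarTower.toAlgHom ℂ L Ω)) L) = p := hq
  refine ⟨q, ?_, ?_⟩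
  · rintro rfl
    rw [Polynomial.map_zero] at hq'
    exact hmon.ne_zero hq'.symm
  · have h1 : Polynomial.aeval z p = 0 := by
      rw [hp]
      exact minpoly.aeval L z
    rw [← hq', Polynomial.aeval_map_algebraMap] at h1
    exact h1

end Pool.Agent.N615.SX
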