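import Pool.Agent.N145.SX.Stm2
import Pool.Agent.N615.SX.Alg0

/-!
# Project SX: elements with constant conjugates (helper615 for helper145)
-/

set_option autoImplicit false
set_option linter.overlappingInstances false
set_option linter.unusedSectionVars false

namespace Pool.Agent.N615.SX

theorem ALG : Pool.Agent.N145.SX.S_ALG := alg_core

end Pool.Agent.N615.SX
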